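import Pool.Agent.Helper91.ND1.Main
import Pool.Agent.Helper60.Idg.ChainTree

namespace Pool.Agent.Results.MP_ee8ab4_co.ExactDim

open Pool.Agent.Helper60.Idg

/-- `c_d = 25/48`. More precisely, `I_d(T) ≤ (25/48) n + 23/48` for every subcubic tree `T` of
order `n`, and for every `k ≥ 1` there is a subcubic tree of order `24 k` with
`I_d(T) ≥ (25/48) (24 k) - 1/2`. -/
theorem result :
    (∀ (V : Type) [Fintype V] (T : SimpleGraph V), SubcubicTree T →
      (Idim T : ℝ) ≤ 25 / 48 * (Fintype.card V : ℝ) + 23 / 48) ∧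
    (∀ k : ℕ, 1 ≤ k → ∃ T : SimpleGraph (Fin (24 * k)), SubcubicTree T ∧
      25 / 48 * (24 * k : ℝ) - 1 / 2 ≤ (Idim T : ℝ)) ∧
    cdim = 25 / 48 := by
  refine ⟨fun V _ T hT => ?_, fun k hk => ⟨chain k, chain_subcubic k hk, ?_⟩,
    le_antisymm Pool.Agent.Helper91.ND1.upper.2.1 cdim_ge⟩
  · exact (Pool.Agent.Helper91.ND1.upper.1 V T hT).1
  · have h : (25 : ℝ) * k ≤ 2 * Idim (chain k) + 1 := by exact_mod_cast lower_dim k
    linarith

end Pool.Agent.Results.MP_ee8ab4_co.ExactDim
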